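import Pool.Agent.MWC.Stmts

/-!
# Block MWC, row ARB: the arrows between the bits, both cases
-/

set_option autoImplicit false

namespace Pool.Agent.MWC.H74

open Pool.Agent.Helper14_MV Pool.Agent.Helper2_MV Pool.Agent.MVO Pool.Agent.MWL

theorem bit_i_le (κ : Bit) : κ.i ≤ κ.k := by
  cases κ <;> simp [Bit.i, Bit.k]

theorem hb_false (n : ℕ) (β : FIC) (κ : Bit) : HB false n β κ ↔ Has n (FC.ofFIC β) κ := by
  have h1 : ba false κ = κ.a := by
    funext j
    simp [ba]
  have h2 : bi false κ = κ.i := by simp [bi]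
  unfold HB Has
  rw [h1, h2]

theorem hb_true (n : ℕ) (β : FIC) (R' : FC)
    (hR : ∀ (k : ℕ) (a b : ℕ → ℕ),
      R'.R k a b ↔ (FC.ofFIC β).R k (fun j => a (k - j)) (fun j => b (k - j))) (κ : Bit) :
    HB true n β κ ↔ Has n R' κ := by
  have h1 : ba true κ = fun j => κ.a (κ.k - j) := by
    funext j
    simp [ba]
  have h2 : bi true κ = κ.k - κ.i := by simp [bi]
  unfold HB Has MWL.Ab
  rw [h1, h2, hR]
  have hi := bit_i_le κ
  have e : ∀ j ≤ κ.k, ad n (fun j => κ.a (κ.k - j)) (κ.k - κ.i) j = ad n κ.a κ.i (κ.k - j) := by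
    intro j hj
    unfold ad
    by_cases h : j = κ.k - κ.i
    · have h' : κ.k - j = κ.i := by omega
      rw [if_pos h, if_pos h']
    · have h' : κ.k - j ≠ κ.i := by omega
      rw [if_neg h, if_neg h']
  constructor
  · intro h
    exact (FC.ofFIC β).ext (fun _ _ => rfl) e h
  · intro h
    exact (FC.ofFIC β).ext (fun _ _ => rfl) (fun j hj => (e j hj).symm) h

theorem lr_rev {n : ℕ} {β : FIC} (h : LRd n (FC.ofFIC β)) (R' : FC)
    (hR : ∀ (k : ℕ) (a b : ℕ → ℕ),
      R'.R k a b ↔ (FC.ofFIC β).R k (fun j => a (k - j)) (fun j => b (k - j))) : LR n R' := by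
  refine ⟨h.pos, ?_, ?_⟩
  · rw [hR]
    refine (FC.ofFIC β).ext (fun j hj => ?_) (fun j hj => ?_) h.per
    · have : j = 0 := by omega
      subst this
      rfl
    · have : j = 0 := by omega
      subst this
      rfl
  · rw [hR]
    refine (FC.ofFIC β).ext (fun j hj => ?_) (fun j hj => ?_) h.rr
    · have : j = 0 ∨ j = 1 := by omega
      rcases this with rfl | rfl <;> rfl
    · have : j = 0 ∨ j = 1 := by omega
      rcases this with rfl | rfl <;> rfl

theorem arb (harr : ArrStmt) (hrev : RevStmt) : ArbStmt := by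
  intro r n β hLR
  have hn : 1 ≤ n := by
    cases r
    · exact LR.pos (by simpa [LRr] using hLR)
    · exact LRd.pos (by simpa [LRr] using hLR)
  have hJ : Iso3 β → ¬ HB r n β (Bit.J 2) := by
    intro H hb
    have hne : (0 : ℕ) ≠ 2 := by decide
    unfold HB MWL.Ab at hb
    have hb' : RR β (mw 1 (ba r (Bit.J 2))) (mw 1 (ad n (ba r (Bit.J 2)) (bi r (Bit.J 2)))) := hb
    have e1 : mw 1 (ba r (Bit.J 2)) = [0, 2, 0] := by
      cases r <;> rfl
    rw [e1] at hb'
    have h3 := congrArg List.length (iso_aba H hne hb')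
    have e2 : (mw 1 (ad n (ba r (Bit.J 2)) (bi r (Bit.J 2)))).length = 3 + 2 * n := by
      cases r
      · simp [mw, asm, ad, ba, bi, Bit.a, Bit.k, Bit.i]
        omega
      · simp [mw, asm, ad, ba, bi, Bit.a, Bit.k, Bit.i]
        omega
    rw [e2] at h3
    simp at h3
    omega
  cases r
  · have hLR' : LR n (FC.ofFIC β) := by simpa [LRr] using hLR
    obtain ⟨a1, a2, a3, a4, a5, -⟩ := harr n (FC.ofFIC β) hLR'
    simp only [hb_false] at hJ ⊢
    exact ⟨a1, a2, a3, a4, a5, hJ⟩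
  · have hLR' : LRd n (FC.ofFIC β) := by simpa [LRr] using hLR
    obtain ⟨R', hR⟩ := hrev (FC.ofFIC β)
    obtain ⟨a1, a2, a3, a4, a5, -⟩ := harr n R' (lr_rev hLR' R' hR)
    simp only [hb_true n β R' hR] at hJ ⊢
    exact ⟨a1, a2, a3, a4, a5, hJ⟩

end Pool.Agent.MWC.H74
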