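import Pool.Agent.MWC.StmtsB

/-!
# Block MWC, row NRA: necessity above (a)
-/

set_option autoImplicit false

namespace Pool.Agent.MWC.H74

open Pool.Agent.Helper14_MV Pool.Agent.Helper2_MV Pool.Agent.MVO Pool.Agent.MWL Pool.Agent.MWA

theorem nra (hcr0 : Cr0Stmt) (hcaa : CaaStmt) (hcab : CabStmt) (hcln : ClnStmt) : NraStmt := by
  intro n β H
  have hLR : LR n (FC.ofFIC β) := by simpa [LRr] using H.lr
  refine ⟨hcr0 false n β H, ?_⟩
  obtain ⟨caa1, caa2⟩ := hcaa n β H
  obtain ⟨cab1, cab2⟩ := hcab n β H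
  obtain ⟨⟨t1, t2, t3, t4, t5, t6, t7, t8⟩, ⟨u1, u2, u3, u4, u5⟩, -, v⟩ :=
    hcln n β H.iso H.cl hLR.pos
  by_cases hA : BX β 1 [1, 1] [0, 2]
  · right; right; left
    exact ⟨t1.1 hA⟩
  · have hJ : HB false n β (Bit.J 3) := by
      by_cases hG : HB false n β Bit.G
      · exact (cab2 hG).resolve_right hA
      · exact (cab1 (caa1.resolve_left hG)).resolve_right hA
    by_cases hG : HB false n β Bit.G
    · left
      exact ⟨u1.1 hG, u2.1 hJ⟩
    · have h22 := caa1.resolve_left hG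
      by_cases hD : HB false n β (Bit.D 0)
      · right; right; right
        exact ⟨u2.1 hJ, u3.1 hD, v hLR (u3.1 hD) (t6.1 h22)⟩
      · right; left
        exact ⟨u2.1 hJ, t2.1 ((caa2 h22).resolve_left hD)⟩

end Pool.Agent.MWC.H74
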