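import Pool.Agent.MWC.Stmts
import Pool.Agent.Helper6_MVO.SEQ

/-!
# Block MWC, row WBI: words related to a word in blocks with the letters 0, 1, if `xyx` is an isoterm
-/

set_option autoImplicit false

namespace Pool.Agent.MWC.H74

open Pool.Agent.Helper14_MV Pool.Agent.Helper2_MV Pool.Agent.MVO Pool.Agent.MWL

theorem filter_eq_rep (c : ℕ) (l : List ℕ) :
    l.filter (fun i => i == c) = List.replicate (l.count c) c := List.filter_beq c

/-- a letter which occurs once keeps its number of occurrences -/
theorem count_one {β : FIC} (H : Iso3 β) {u v : List ℕ} (h : RR β u v) {c : ℕ}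
    (hc : u.count c = 1) : v.count c = 1 := by
  have h1 := h.filter (fun i => i == c)
  rw [filter_eq_rep, filter_eq_rep, hc] at h1
  have hne : c ≠ c + 1 := by omega
  have h2 : RR β [c, c + 1, c]
      (List.replicate (v.count c) c ++ [c + 1] ++ List.replicate (v.count c) c) :=
    (h1.append (RR.refl [c + 1])).append h1
  have h3 := congrArg List.length (iso_aba H hne h2)
  simp only [List.length_append, List.length_replicate, List.length_cons, List.length_nil] at h3
  omega

theorem count_zero {β : FIC} (H : Iso3 β) {u v : List ℕ} (h : RR β u v) {c : ℕ}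
    (hc : u.count c = 0) : v.count c = 0 :=
  List.count_eq_zero.2 (h.content H (List.count_eq_zero.1 hc))

theorem count_two {β : FIC} (H : Iso3 β) {u v : List ℕ} (h : RR β u v) (c : ℕ) :
    2 ≤ u.count c ↔ 2 ≤ v.count c := by
  have a0 : u.count c = 0 → v.count c = 0 := count_zero H h
  have a1 : u.count c = 1 → v.count c = 1 := count_one H h
  have b0 : v.count c = 0 → u.count c = 0 := count_zero H h.symm
  have b1 : v.count c = 1 → u.count c = 1 := count_one H h.symm
  omega

theorem nc2 {β : FIC} (H : Iso3 β) : NC2 β := by
  intro h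
  have h1 : RR β [0, 1] [1, 0] := h
  have := iso_ab H (by decide) h1
  simp at this

private theorem deg_zero_of_sep {k : ℕ} {C : ℕ → List ℕ} (hC : BlkOk k C) {c : ℕ}
    (hc : ¬ NS k c) : deg k (fun j => (C j).count c) = 0 := by
  unfold deg
  refine Finset.sum_eq_zero fun j hj => ?_
  rw [Finset.mem_range] at hj
  refine List.count_eq_zero.2 ?_
  intro hmem
  exact hc (hC j (by omega) c hmem)

theorem wbi : WbiStmt := by
  intro β H k B v hB hr
  have hok : BlkOk k B := by
    intro j hj c hc hs
    rcases hB j hj c hc with h | h <;> omega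
  have hbig : ∀ c, k + 1 < c → v.count c = 0 := by
    intro c hc
    have h0 : (asm k B).count c = 0 := by
      rw [List.count_eq_zero]
      intro hm
      rcases mem_asm.1 hm with h | ⟨j, hj, h⟩
      · omega
      · rcases hB j hj c h with h | h
        · omega
        · omega
    exact count_zero H hr h0
  have hsep : ∀ c, 2 ≤ c → c ≤ k + 1 → v.count c = 1 := by
    intro c h1 h2
    exact count_one H hr (count_sep hok h1 h2)
  set p : ℕ → Bool := fun c => decide (2 ≤ c ∧ c ≤ k + 1) with hpdef
  have h1 : (asm k B).filter p = seps k := filter_sep hok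
  have h2 : (seps k).Perm (v.filter p) := by
    rw [← h1, List.perm_iff_count]
    intro c
    by_cases hc : 2 ≤ c ∧ c ≤ k + 1
    · rw [List.count_filter (by rw [hpdef, decide_eq_true_iff]; exact hc),
        List.count_filter (by rw [hpdef, decide_eq_true_iff]; exact hc),
        hsep c hc.1 hc.2, count_sep hok hc.1 hc.2]
    · have h3 : ∀ l : List ℕ, (l.filter p).count c = 0 := by
        intro l
        rw [List.count_eq_zero]
        intro hm
        have h4 := (List.mem_filter.1 hm).2
        rw [hpdef, decide_eq_true_iff] at h4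
        exact hc h4
      rw [h3, h3]
  have h3 : RR β (seps k) (v.filter p) := h1 ▸ hr.filter p
  obtain ⟨B', hB', hv⟩ := dec (Pool.Agent.MVO.H6.seps_keep (nc2 H) h2 h3)
  have hlet : ∀ j ≤ k, ∀ c ∈ B' j, c = 0 ∨ c = 1 := by
    intro j hj c hc
    have hns := hB' j c hc
    have hm : c ∈ v := by
      rw [hv, mem_asm]
      exact Or.inr ⟨j, hj, hc⟩
    by_contra hcon
    have hc2 : 2 ≤ c := by omega
    have hck : k + 1 < c := by
      by_contra hle
      exact hns ⟨hc2, by omega⟩
    exact absurd hm (List.count_eq_zero.1 (hbig c hck))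
  have hcongr : asm k (fun j => if j ≤ k then B' j else []) = asm k B' :=
    asm_congr fun j hj => if_pos hj
  have hok' : BlkOk k (fun j => if j ≤ k then B' j else []) := by
    intro j hj c hc
    have hc : c ∈ (if j ≤ k then B' j else []) := hc
    rw [if_pos hj] at hc
    exact hB' j c hc
  refine ⟨fun j => if j ≤ k then B' j else [], ?_, ?_, ?_⟩
  · rw [hcongr, ← hv]
  · intro j c hc
    have hc : c ∈ (if j ≤ k then B' j else []) := hc
    by_cases hj : j ≤ k
    · rw [if_pos hj] at hc
      exact hlet j hj c hc
    · rw [if_neg hj] at hc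
      exact absurd hc (List.not_mem_nil)
  · intro c
    by_cases hns : NS k c
    · rw [← count_asm hns, ← count_asm (B := fun j => if j ≤ k then B' j else []) hns, hcongr,
        ← hv]
      exact count_two H hr c
    · rw [deg_zero_of_sep hok hns, deg_zero_of_sep hok' hns]

end Pool.Agent.MWC.H74
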