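import Pool.Agent.Helper92_MVO.LNN
import Pool.Agent.Helper74_MWC.WBI

/-!
# Block MWC, row LNI: Lemma N if `xyx` is an isoterm (the proof of the row LNN of MVO)
-/

namespace Pool.Agent.MWC.H74

open Pool.Agent.Helper14_MV Pool.Agent.Helper2_MV Pool.Agent.MVO Pool.Agent.MWL
open Pool.Agent.Helper92_MVO (count_ow_le count_ow count_flatMap_ge w2_flatMap ns01 count_w2 all_rep
  KK le_gam kk_mono kk_w2 tc0 tc1 filter_ne_blk perm01 flp_self flp_ne)

/-- the main computation of (2) -/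
theorem exch_eq {β : FIC} (hβ : Iso3 β) {k x : ℕ} (hx : NS k x) (c0 : ℕ → ℕ) (p : ℕ → Bool)
    {k1 : ℕ} {a1 b1 : ℕ → ℕ} (h1 : 2 ≤ deg k1 a1) (h2 : 2 ≤ deg k1 b1) (e e' : ℕ → Bool)
    (g : ℕ → List ℕ) (m q : List ℕ)
    (h : RR β ((m ++ (w2 k1 a1 b1 e).flatMap g ++ q).filter p)
      (asm k (fun j => List.replicate (c0 j) x))) :
    (m ++ (w2 k1 a1 b1 e).flatMap g ++ q).filter p =
      (m ++ (w2 k1 a1 b1 e').flatMap g ++ q).filter p := by
  have key : ∀ d, 2 ≤ (w2 k1 a1 b1 e).count d → ∀ t ∈ (g d).filter p, t = x := by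
    intro d hd t ht
    by_contra htx
    have h3 := count_ow_le hx c0 htx
    have h4 := count_two hβ h t
    replace h3 : List.count t ((m ++ (w2 k1 a1 b1 e).flatMap g ++ q).filter p) ≤ 1 := by
      by_contra h5
      have := h4.1 (by omega)
      omega
    rw [List.mem_filter] at ht
    have h5 : List.count t ((m ++ (w2 k1 a1 b1 e).flatMap g ++ q).filter p) =
        List.count t (m ++ (w2 k1 a1 b1 e).flatMap g ++ q) := List.count_filter ht.2
    rw [h5, List.count_append, List.count_append] at h3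
    have h6 := count_flatMap_ge g d t (w2 k1 a1 b1 e)
    have h7 : 1 ≤ (g d).count t := List.one_le_count_iff.mpr ht.1
    nlinarith
  have h3 := all_rep (key 0 (by rw [(count_w2 k1 a1 b1 e).1]; exact h1))
  have h4 := all_rep (key 1 (by rw [(count_w2 k1 a1 b1 e).2]; exact h2))
  rw [List.filter_append, List.filter_append, List.filter_append, List.filter_append,
    List.filter_flatMap, List.filter_flatMap]
  rw [w2_flatMap (fun c => (g c).filter p) x _ _ h3 h4 k1 a1 b1 e e']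

theorem kk_ex1 {β : FIC} (hβ : Iso3 β) {k : ℕ} {a b : ℕ → ℕ} {k1 : ℕ} {a1 b1 : ℕ → ℕ}
    (h1 : 2 ≤ deg k1 a1) (h2 : 2 ≤ deg k1 b1) (e e' : ℕ → Bool) (φ : Word →* Word) (m q : Word)
    (h : KK β k a b (m * φ (FreeMonoid.ofList (w2 k1 a1 b1 e)) * q)) :
    KK β k a b (m * φ (FreeMonoid.ofList (w2 k1 a1 b1 e')) * q) := by
  have hl : ∀ u : List ℕ, (m * φ (FreeMonoid.ofList u) * q).toList =
      m.toList ++ u.flatMap (fun i => (φ (FreeMonoid.of i)).toList) ++ q.toList := by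
    intro u
    rw [FreeMonoid.toList_mul, FreeMonoid.toList_mul, toList_hom, FreeMonoid.toList_ofList]
  obtain ⟨h3, h4⟩ := h
  rw [hl] at h3 h4
  refine ⟨?_, ?_⟩
  · rw [hl, ← exch_eq hβ (ns01 k (Or.inl rfl)) a _ h1 h2 e e' _ _ _ h3]
    exact h3
  · rw [hl, ← exch_eq hβ (ns01 k (Or.inr rfl)) b _ h1 h2 e e' _ _ _ h4]
    exact h4

theorem gam_ex {β : FIC} (hβ : Iso3 β) (k : ℕ) (a b : ℕ → ℕ) {k1 : ℕ} {a1 b1 : ℕ → ℕ}
    (h1 : 2 ≤ deg k1 a1) (h2 : 2 ≤ deg k1 b1) (e e' : ℕ → Bool) :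
    RR (gam (KK β k a b)) (w2 k1 a1 b1 e) (w2 k1 a1 b1 e') := by
  intro φ m q
  exact ⟨kk_ex1 hβ h1 h2 e e' φ m q, kk_ex1 hβ h1 h2 e' e φ m q⟩

theorem deg_ge {β : FIC} (hβ : Iso3 β) {k x : ℕ} (hx : NS k x) {c d : ℕ → ℕ}
    (h : RR β (asm k (fun j => List.replicate (c j) x)) (asm k (fun j => List.replicate (d j) x)))
    (hd : 2 ≤ deg k d) : 2 ≤ deg k c := by
  have h2 := count_two hβ h x
  rw [count_ow hx c, count_ow hx d] at h2
  exact h2.2 hd

theorem kk_str (hwbi : WbiStmt) {β : FIC} (hβ : Iso3 β) (hG : Gath2 β) {k : ℕ}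
    {a b : ℕ → ℕ} (ha : 2 ≤ deg k a) (hb : 2 ≤ deg k b) (w : Word) (h : KK β k a b w) :
    ∃ e : ℕ → Bool, RR β w.toList (w2 k a b e) := by
  obtain ⟨h0, h1⟩ := h
  obtain ⟨B0, hB0, hB0', _⟩ := hwbi β hβ k (fun j => List.replicate (a j) 0) _
    (fun j _ c hc => Or.inl (List.eq_of_mem_replicate hc)) (RR.symm h0)
  obtain ⟨B1, hB1, hB1', _⟩ := hwbi β hβ k (fun j => List.replicate (b j) 1) _
    (fun j _ c hc => Or.inr (List.eq_of_mem_replicate hc)) (RR.symm h1)
  have hf : w.toList.filter (fun c => decide (2 ≤ c ∧ c ≤ k + 1)) = seps k := by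
    have h2 : (w.toList.filter (fun c => decide (c ≠ 1))).filter
        (fun c => decide (2 ≤ c ∧ c ≤ k + 1)) = seps k := by
      rw [hB0]
      exact filter_sep (fun j _ c hc => ns01 k (hB0' j c hc))
    rw [List.filter_filter] at h2
    rw [← h2]
    apply List.filter_congr
    intro c _
    by_cases hc : 2 ≤ c ∧ c ≤ k + 1
    · have : c ≠ 1 := by omega
      simp [hc, this]
    · simp [hc]
  obtain ⟨B, hB, hw⟩ := dec hf
  have hB01 : ∀ j ≤ k, ∀ c ∈ B j, c = 0 ∨ c = 1 := by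
    intro j hj c hc
    by_cases hc1 : c = 1
    · exact Or.inr hc1
    · have h2 : c ∈ w.toList.filter (fun c => decide (c ≠ 1)) := by
        rw [List.mem_filter, decide_eq_true_iff]
        refine ⟨?_, hc1⟩
        rw [hw, mem_asm]
        exact Or.inr ⟨j, hj, hc⟩
      rw [hB0, mem_asm] at h2
      rcases h2 with h2 | ⟨j', _, h2⟩
      · exact absurd h2 (hB j c hc)
      · exact hB0' j' c h2
  have e0 : w.toList.filter (fun c => decide (c ≠ 1)) =
      asm k (fun j => List.replicate ((B j).count 0) 0) := by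
    rw [hw, asm_filter _ (fun c h1 _ => by rw [decide_eq_true_iff]; omega)]
    exact asm_congr (fun j hj => (filter_ne_blk (hB01 j hj)).1)
  have e1 : w.toList.filter (fun c => decide (c ≠ 0)) =
      asm k (fun j => List.replicate ((B j).count 1) 1) := by
    rw [hw, asm_filter _ (fun c h1 _ => by rw [decide_eq_true_iff]; omega)]
    exact asm_congr (fun j hj => (filter_ne_blk (hB01 j hj)).2)
  rw [e0] at h0
  rw [e1] at h1
  have hd0 : 2 ≤ deg k (fun j => (B j).count 0) := deg_ge hβ (ns01 k (Or.inl rfl)) h0 ha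
  have hd1 : 2 ≤ deg k (fun j => (B j).count 1) := deg_ge hβ (ns01 k (Or.inr rfl)) h1 hb
  obtain ⟨D, hD, hr⟩ := hG k B [0, 1] (by decide) (fun j _ c hc => hB j c hc) (by decide)
    (fun c hc => ns01 k (by simpa using hc)) (fun j hj c hc => by simpa using hB01 j hj c hc)
    (fun c hc => by
      have : c = 0 ∨ c = 1 := by simpa using hc
      rcases this with rfl | rfl
      · exact hd0
      · exact hd1)
  refine ⟨fun j => decide (D j = [1, 0]), ?_⟩
  have e2 : gw k (fun j c => (B j).count c) D =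
      w2 k (fun j => (B j).count 0) (fun j => (B j).count 1) (fun j => decide (D j = [1, 0])) := by
    unfold gw w2
    apply asm_congr
    intro j _
    show (D j).flatMap (fun c => List.replicate ((B j).count c) c) =
      bl ((B j).count 0) ((B j).count 1) (decide (D j = [1, 0]))
    rcases perm01 (hD j) with h3 | h3
    · have h4 : decide (D j = [1, 0]) = false := by rw [h3]; decide
      rw [h4, h3]
      simp [bl]
    · have h4 : decide (D j = [1, 0]) = true := by rw [h3]; decide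
      rw [h4, h3]
      simp [bl]
  rw [e2, ← hw] at hr
  exact β.trans hr (β.trans (tc0 h0 _ _) (tc1 h1 _ _))

/-- Lemma N with the weaker hypothesis `Gath2` -/
theorem ln2 (hwbi : WbiStmt) : ∀ β : FIC, Iso3 β → Gath2 β → Rig β → ModF β →
    ∀ G1 G2 : FIC, β ≤ G1 → β ≤ G2 →
    ∀ (k : ℕ) (a a' b : ℕ → ℕ) (i : ℕ), 2 ≤ deg k a → 2 ≤ deg k a' → 2 ≤ deg k b → i ≤ k →
      Bt G1 k a b i → L1 G2 k a a' → Bt G1 k a' b i ∨ Bt G2 k a' b i := by
  intro β hβ hG hR hM G1 G2 hG1 hG2 k a a' b i ha ha' hb hi hBt hL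
  obtain ⟨r, hr⟩ := hR k a' b ha' hb
  by_cases hri : r = i
  swap
  · left
    intro e
    exact hG1 _ _ (hr e (flp e i) (flp_ne e hri).symm)
  subst hri
  -- one exchange gives all
  have hall : ∀ G : FIC, β ≤ G → ∀ e, Ex G k a' b e r → Bt G k a' b r := by
    intro G hG' e he e1
    by_cases h1 : e1 r = e r
    · have h2 : RR G (w2 k a' b e1) (w2 k a' b e) := hG' _ _ (hr e1 e h1)
      have h3 : RR G (w2 k a' b (flp e r)) (w2 k a' b (flp e1 r)) :=
        hG' _ _ (hr _ _ (by rw [flp_self, flp_self, h1]))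
      exact G.trans h2 (G.trans he h3)
    · have h1' : e1 r = flp e r r := by
        rw [flp_self]
        revert h1
        cases e1 r <;> cases e r <;> simp
      have h2 : RR G (w2 k a' b e1) (w2 k a' b (flp e r)) := hG' _ _ (hr _ _ h1')
      have h3 : RR G (w2 k a' b e) (w2 k a' b (flp e1 r)) :=
        hG' _ _ (hr _ _ (by rw [flp_self, h1', flp_self, Bool.not_not]))
      exact G.trans h2 (G.trans (G.symm he) h3)
  by_contra hcon
  rw [not_or] at hcon
  obtain ⟨hn1, hn2⟩ := hcon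
  obtain ⟨e, he⟩ : ∃ e : ℕ → Bool, e = fun _ => false := ⟨_, rfl⟩
  obtain ⟨Γ, hΓ⟩ : ∃ Γ, Γ = gam (KK β k a' b) := ⟨_, rfl⟩
  have hβΓ : β ≤ Γ := by
    rw [hΓ]
    exact le_gam (fun u v h hu => kk_mono u v h hu)
  have hex : ∀ {k1 : ℕ} {a1 b1 : ℕ → ℕ}, 2 ≤ deg k1 a1 → 2 ≤ deg k1 b1 → ∀ e e' : ℕ → Bool,
      RR Γ (w2 k1 a1 b1 e) (w2 k1 a1 b1 e') := by
    intro k1 a1 b1 h1 h2 e e'
    rw [hΓ]
    exact gam_ex hβ k a' b h1 h2 e e'
  have hchain := hM (FIC.inf G1 Γ) G2 Γ (FIC.le_inf hG1 hβΓ) hG2 hβΓ (FIC.inf_le_right _ _)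
    (FreeMonoid.ofList (w2 k a' b e)) (FreeMonoid.ofList (w2 k a' b (flp e r)))
    (by
      have s1 : (FIC.sup (FIC.inf G1 Γ) G2).r (FreeMonoid.ofList (w2 k a' b e))
          (FreeMonoid.ofList (w2 k a b e)) :=
        FIC.le_sup_right _ _ _ _ (tc0 (RR.symm hL) b e)
      have s2 : (FIC.sup (FIC.inf G1 Γ) G2).r (FreeMonoid.ofList (w2 k a b e))
          (FreeMonoid.ofList (w2 k a b (flp e r))) :=
        FIC.le_sup_left _ _ _ _ ⟨hBt e, hex ha hb e (flp e r)⟩
      have s3 : (FIC.sup (FIC.inf G1 Γ) G2).r (FreeMonoid.ofList (w2 k a b (flp e r)))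
          (FreeMonoid.ofList (w2 k a' b (flp e r))) :=
        FIC.le_sup_right _ _ _ _ (tc0 hL b (flp e r))
      exact (FIC.sup (FIC.inf G1 Γ) G2).trans s1 ((FIC.sup (FIC.inf G1 Γ) G2).trans s2 s3))
    (hex ha' hb e (flp e r))
  -- walk along the chain
  have hwalk : ∀ w : Word, (FIC.sup (FIC.inf G1 Γ) (FIC.inf G2 Γ)).r
      (FreeMonoid.ofList (w2 k a' b e)) w → KK β k a' b w ∧ RR β (w2 k a' b e) w.toList := by
    intro w hw
    induction hw with
    | refl => exact ⟨kk_w2 β k a' b e, RR.refl _⟩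
    | tail _ h4 ih =>
      rename_i y z _
      obtain ⟨ihK, ihr⟩ := ih
      have hΓyz : Γ.r y z := by
        rcases h4 with h4 | h4
        · exact h4.2
        · exact h4.2
      have hKz : KK β k a' b z := by
        rw [hΓ] at hΓyz
        exact (gam_self hΓyz).1 ihK
      refine ⟨hKz, ?_⟩
      obtain ⟨e', he'⟩ := kk_str hwbi hβ hG ha' hb z hKz
      by_cases h5 : e r = e' r
      · exact β.trans (hr e e' h5) (RR.symm he')
      · exfalso
        have h5' : e' r = flp e r r := by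
          rw [flp_self]
          revert h5
          cases e' r <;> cases e r <;> simp
        have h6 : RR β z.toList (w2 k a' b (flp e r)) := β.trans he' (hr _ _ h5')
        rcases h4 with h4 | h4
        · have h7 : RR G1 y.toList z.toList := h4.1
          have h8 : Ex G1 k a' b e r :=
            G1.trans (hG1 _ _ ihr) (G1.trans h7 (hG1 _ _ h6))
          exact hn1 (hall G1 hG1 e h8)
        · have h7 : RR G2 y.toList z.toList := h4.1
          have h8 : Ex G2 k a' b e r :=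
            G2.trans (hG2 _ _ ihr) (G2.trans h7 (hG2 _ _ h6))
          exact hn2 (hall G2 hG2 e h8)
  have h9 := (hwalk _ hchain).2
  exact hn1 (hall G1 hG1 e (hG1 _ _ h9))

theorem lni (hwbi : WbiStmt) : LniStmt :=
  fun β hβ hG => ln2 hwbi β hβ (Gath.to2 hG)

end Pool.Agent.MWC.H74
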